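import Pool.Agent.Helper76.ND.StE

/-!
# Project ND, module Bd: bad words are rare
-/

set_option autoImplicit false

noncomputable section

namespace Pool.Agent.Helper4.ND

open Pool.Agent.Helper76.ND Finset

open Classical in
theorem card_dev_bd (hHo : StHo) (j : ℕ) (D : ℝ) (hj : 1 ≤ j) (hD : 0 ≤ D) :
    (((W j).filter (fun w => D < |(hd w : ℝ) - j / 2|)).card : ℝ) ≤
      2 ^ j * (2 * Real.exp (-(2 * D ^ 2 / j))) := by
  have hmaps : ∀ w ∈ (W j).filter (fun w => D < |(hd w : ℝ) - j / 2|),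
      hd w ∈ (range (j + 1)).filter (fun k : ℕ => D ≤ |(k : ℝ) - j / 2|) := by
    intro w hw
    obtain ⟨h1, h2⟩ := mem_filter.1 hw
    rw [mem_filter, mem_range]
    have h3 := hd_le w
    rw [mem_W.1 h1] at h3
    exact ⟨by omega, h2.le⟩
  rw [card_eq_sum_card_fiberwise hmaps]
  push_cast
  calc ∑ k ∈ (range (j + 1)).filter (fun k : ℕ => D ≤ |(k : ℝ) - j / 2|),
        ((((W j).filter (fun w => D < |(hd w : ℝ) - j / 2|)).filter (fun w => hd w = k)).card : ℝ)
      ≤ ∑ k ∈ (range (j + 1)).filter (fun k : ℕ => D ≤ |(k : ℝ) - j / 2|), 2 ^ j * q j k := by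
        apply sum_le_sum
        intro k _
        have e1 : (2 : ℝ) ^ j * q j k = (j.choose k : ℝ) := by
          unfold q
          field_simp
        rw [e1, ← card_hd j k]
        norm_cast
        apply card_le_card
        intro w hw
        rw [mem_filter] at hw ⊢
        exact ⟨(mem_filter.1 hw.1).1, hw.2⟩
    _ = 2 ^ j * ∑ k ∈ (range (j + 1)).filter (fun k : ℕ => D ≤ |(k : ℝ) - j / 2|), q j k := by
        rw [mul_sum]
    _ ≤ 2 ^ j * (2 * Real.exp (-(2 * D ^ 2 / j))) :=
        mul_le_mul_of_nonneg_left (hHo j D hj hD) (by positivity)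

open Classical in
theorem card_suffix_bd (t j : ℕ) (hjt : j ≤ t) (P : List Bool → Prop) :
    ((W t).filter (fun l => P (l.drop (t - j)))).card = 2 ^ (t - j) * ((W j).filter P).card := by
  have h := sum_W_append (A := ℕ) (t - j) j (fun l => if P (l.drop (t - j)) then 1 else 0)
  rw [Nat.sub_add_cancel hjt] at h
  rw [card_filter, h]
  have h2 : ∀ a ∈ W (t - j), ∑ b ∈ W j, (if P ((a ++ b).drop (t - j)) then 1 else 0) =
      ((W j).filter P).card := by
    intro a ha
    rw [card_filter]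
    apply sum_congr rfl
    intro b _
    rw [List.drop_left' (mem_W.1 ha)]
  rw [sum_congr rfl h2, sum_const, card_W, smul_eq_mul]

open Classical in
/-- the theorem StBd -/
theorem hBd (hHo : StHo) : StBd := by
  intro t D ht hD
  have hsub : (W t).filter (fun l => ¬ Gd D l) ⊆ (Icc 1 t).biUnion
      (fun j => (W t).filter (fun l => D < |(hd (l.drop (t - j)) : ℝ) - j / 2|)) := by
    intro l hl
    obtain ⟨h1, h2⟩ := mem_filter.1 hl
    have hlen := mem_W.1 h1
    unfold Gd at h2
    push Not at h2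
    obtain ⟨j, hj, hlt⟩ := h2
    rw [hlen] at hj hlt
    rw [mem_biUnion]
    refine ⟨j, ?_, mem_filter.2 ⟨h1, hlt⟩⟩
    rw [mem_Icc]
    refine ⟨?_, hj⟩
    rcases Nat.eq_zero_or_pos j with h0 | h0
    · exfalso
      subst h0
      rw [Nat.sub_zero, List.drop_of_length_le hlen.le] at hlt
      simp at hlt
      linarith
    · exact h0
  have hcard : ∀ j ∈ Icc 1 t,
      (((W t).filter (fun l => D < |(hd (l.drop (t - j)) : ℝ) - j / 2|)).card : ℝ) ≤
        2 ^ t * (2 * Real.exp (-(2 * D ^ 2 / t))) := by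
    intro j hj
    obtain ⟨hj1, hj2⟩ := mem_Icc.1 hj
    rw [card_suffix_bd t j hj2 (fun w => D < |(hd w : ℝ) - j / 2|)]
    push_cast
    have h1 := card_dev_bd hHo j D hj1 hD
    have hj0 : (0 : ℝ) < j := by exact_mod_cast hj1
    have hjt : (j : ℝ) ≤ t := by exact_mod_cast hj2
    have h2 : Real.exp (-(2 * D ^ 2 / j)) ≤ Real.exp (-(2 * D ^ 2 / t)) := by
      apply Real.exp_le_exp.2
      apply neg_le_neg
      exact div_le_div_of_nonneg_left (by positivity) hj0 hjt
    calc (2 : ℝ) ^ (t - j) * (((W j).filter (fun w => D < |(hd w : ℝ) - j / 2|)).card : ℝ)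
        ≤ 2 ^ (t - j) * (2 ^ j * (2 * Real.exp (-(2 * D ^ 2 / j)))) :=
          mul_le_mul_of_nonneg_left h1 (by positivity)
      _ = 2 ^ t * (2 * Real.exp (-(2 * D ^ 2 / j))) := by
          rw [← mul_assoc, ← pow_add, Nat.sub_add_cancel hj2]
      _ ≤ 2 ^ t * (2 * Real.exp (-(2 * D ^ 2 / t))) := by
          apply mul_le_mul_of_nonneg_left _ (by positivity)
          linarith
  calc (((W t).filter (fun l => ¬ Gd D l)).card : ℝ)
      ≤ (((Icc 1 t).biUnion
        (fun j => (W t).filter (fun l => D < |(hd (l.drop (t - j)) : ℝ) - j / 2|))).card : ℝ) := by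
        exact_mod_cast card_le_card hsub
    _ ≤ ∑ j ∈ Icc 1 t,
        (((W t).filter (fun l => D < |(hd (l.drop (t - j)) : ℝ) - j / 2|)).card : ℝ) := by
        exact_mod_cast card_biUnion_le
    _ ≤ ∑ j ∈ Icc 1 t, 2 ^ t * (2 * Real.exp (-(2 * D ^ 2 / t))) := sum_le_sum hcard
    _ = 2 * t * 2 ^ t * Real.exp (-(2 * D ^ 2 / t)) := by
        rw [sum_const, Nat.card_Icc, nsmul_eq_mul, Nat.add_sub_cancel]
        ring

end Pool.Agent.Helper4.ND
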