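import Pool.Agent.Helper76.ND.StC

/-!
# Project ND, module Bt: tails of P3
-/

set_option autoImplicit false

noncomputable section

namespace Pool.Agent.Helper4.ND

open Pool.Agent.Helper76.ND Finset

theorem qs_nonneg_bt (n s : ℕ) : 0 ≤ qs n s := by
  rcases n with _ | n <;> rcases s with _ | s <;> unfold qs <;> positivity

theorem P3_nonneg_bt (b : ℕ) : 0 ≤ P3 b := by
  unfold P3; positivity

theorem mul_P3_bt (b : ℕ) (hb : 1 ≤ b) : (b : ℝ) * P3 b = 6 * qs 4 (b + 1) := by
  obtain ⟨c, rfl⟩ : ∃ c, b = c + 1 := ⟨b - 1, by omega⟩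
  have h := Nat.add_one_mul_choose_eq c 2
  have h' : ((c + 1 : ℕ) : ℝ) * (c.choose 2 : ℝ) = ((c + 1).choose 3 : ℝ) * 3 := by
    exact_mod_cast h
  have hq : qs 4 (c + 1 + 1) = ((c + 1).choose 3 : ℝ) / 2 ^ (c + 1 + 1) := rfl
  rw [hq]
  unfold P3
  rw [Nat.add_sub_cancel]
  rw [← mul_div_assoc, h']
  rw [pow_succ (2 : ℝ) (c + 1)]
  field_simp
  ring

/-- the theorem StBt -/
theorem hBt (hGen : StGen) (hCv : StCv) : StBt := by
  obtain ⟨-, -, hP, -⟩ := hCv
  constructor
  · intro K θ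
    have inner : ∀ B ∈ range (θ + 1), ∑ b ∈ (Icc 3 K).filter (fun b => θ < B + b), P3 b ≤
        27 * (2 / 3 : ℝ) ^ (θ - B) := by
      intro B hB
      have hB' : B ≤ θ := by
        have := mem_range.1 hB
        omega
      have h1 : (∑ b ∈ (Icc 3 K).filter (fun b => θ < B + b), P3 b) * (3 / 2 : ℝ) ^ (θ - B) ≤ 27 := by
        calc (∑ b ∈ (Icc 3 K).filter (fun b => θ < B + b), P3 b) * (3 / 2 : ℝ) ^ (θ - B)
            = ∑ b ∈ (Icc 3 K).filter (fun b => θ < B + b), P3 b * (3 / 2 : ℝ) ^ (θ - B) := by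
              rw [sum_mul]
          _ ≤ ∑ b ∈ (Icc 3 K).filter (fun b => θ < B + b), qs 3 b * (3 / 2 : ℝ) ^ b := by
              apply sum_le_sum
              intro b hb
              obtain ⟨hb1, hb2⟩ := mem_filter.1 hb
              have hb3 := (mem_Icc.1 hb1).1
              rw [hP b (by omega)]
              apply mul_le_mul_of_nonneg_left _ (qs_nonneg_bt 3 b)
              exact pow_le_pow_right₀ (by norm_num) (by omega)
          _ ≤ ∑ s ∈ range (K + 1), qs 3 s * (3 / 2 : ℝ) ^ s := by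
              apply sum_le_sum_of_subset_of_nonneg
              · intro b hb
                have := (mem_Icc.1 (mem_filter.1 hb).1).2
                exact mem_range.2 (by omega)
              · intro s _ _
                exact mul_nonneg (qs_nonneg_bt 3 s) (by positivity)
          _ ≤ ((3 / 2) / (2 - 3 / 2) : ℝ) ^ 3 := hGen 3 (K + 1) (3 / 2) (by norm_num) (by norm_num)
          _ = 27 := by norm_num
      have h2 : (3 / 2 : ℝ) ^ (θ - B) * (2 / 3 : ℝ) ^ (θ - B) = 1 := by
        rw [← mul_pow]; norm_num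
      have h3 : (0 : ℝ) ≤ (2 / 3 : ℝ) ^ (θ - B) := by positivity
      calc ∑ b ∈ (Icc 3 K).filter (fun b => θ < B + b), P3 b
          = ((∑ b ∈ (Icc 3 K).filter (fun b => θ < B + b), P3 b) * (3 / 2 : ℝ) ^ (θ - B)) *
            (2 / 3 : ℝ) ^ (θ - B) := by
            rw [mul_assoc, h2, mul_one]
        _ ≤ 27 * (2 / 3 : ℝ) ^ (θ - B) := mul_le_mul_of_nonneg_right h1 h3
    have hgeo : ∑ B ∈ range (θ + 1), (3 / 4 : ℝ) ^ B ≤ 4 := by
      rw [geom_sum_eq (by norm_num)]
      have : (0 : ℝ) ≤ (3 / 4 : ℝ) ^ (θ + 1) := by positivity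
      rw [div_le_iff_of_neg (by norm_num)]
      linarith
    calc ∑ B ∈ range (θ + 1), (1 / 2 : ℝ) ^ B *
          ∑ b ∈ (Icc 3 K).filter (fun b => θ < B + b), P3 b
        ≤ ∑ B ∈ range (θ + 1), (27 * (2 / 3 : ℝ) ^ θ) * (3 / 4 : ℝ) ^ B := by
          apply sum_le_sum
          intro B hB
          have hB' : B ≤ θ := by
            have := mem_range.1 hB
            omega
          have e1 : (2 / 3 : ℝ) ^ θ = (2 / 3 : ℝ) ^ (θ - B) * (2 / 3 : ℝ) ^ B := by
            rw [← pow_add, Nat.sub_add_cancel hB']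
          have e2 : (2 / 3 : ℝ) ^ B * (3 / 4 : ℝ) ^ B = (1 / 2 : ℝ) ^ B := by
            rw [← mul_pow]; norm_num
          calc (1 / 2 : ℝ) ^ B * ∑ b ∈ (Icc 3 K).filter (fun b => θ < B + b), P3 b
              ≤ (1 / 2 : ℝ) ^ B * (27 * (2 / 3 : ℝ) ^ (θ - B)) :=
                mul_le_mul_of_nonneg_left (inner B hB) (by positivity)
            _ = 27 * (2 / 3 : ℝ) ^ (θ - B) * ((2 / 3 : ℝ) ^ B * (3 / 4 : ℝ) ^ B) := by
                rw [e2]; ring
            _ = (27 * (2 / 3 : ℝ) ^ θ) * (3 / 4 : ℝ) ^ B := by rw [e1]; ring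
      _ = (27 * (2 / 3 : ℝ) ^ θ) * ∑ B ∈ range (θ + 1), (3 / 4 : ℝ) ^ B := by rw [mul_sum]
      _ ≤ (27 * (2 / 3 : ℝ) ^ θ) * 4 := mul_le_mul_of_nonneg_left hgeo (by positivity)
      _ = 108 * (2 / 3 : ℝ) ^ θ := by ring
  · have tot : ∀ K : ℕ, ∑ b ∈ Icc (3 : ℕ) K, (b : ℝ) * P3 b ≤ 6 := by
      intro K
      calc ∑ b ∈ Icc (3 : ℕ) K, (b : ℝ) * P3 b = ∑ b ∈ Icc (3 : ℕ) K, 6 * qs 4 (b + 1) := by
            apply sum_congr rfl
            intro b hb
            exact mul_P3_bt b (by have := (mem_Icc.1 hb).1; omega)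
        _ = 6 * ∑ s ∈ (Icc (3 : ℕ) K).image (fun b => b + 1), qs 4 s := by
            rw [← mul_sum, sum_image (fun a _ b _ h => by simpa using h)]
        _ ≤ 6 * ∑ s ∈ range (K + 2), qs 4 s := by
            apply mul_le_mul_of_nonneg_left _ (by norm_num)
            apply sum_le_sum_of_subset_of_nonneg
            · intro s hs
              obtain ⟨b, hb, rfl⟩ := mem_image.1 hs
              have := (mem_Icc.1 hb).2
              exact mem_range.2 (by omega)
            · intro s _ _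
              exact qs_nonneg_bt 4 s
        _ ≤ 6 * 1 := by
            apply mul_le_mul_of_nonneg_left _ (by norm_num)
            have h := hGen 4 (K + 2) 1 (by norm_num) (by norm_num)
            have e : ((1 : ℝ) / (2 - 1)) ^ 4 = 1 := by norm_num
            rw [e] at h
            simpa using h
        _ = 6 := by norm_num
    intro K
    rcases Nat.lt_or_ge K 12 with hK | hK
    · rw [Icc_eq_empty (by omega : ¬ (13 : ℕ) ≤ K), sum_empty]
      have := tot 12
      linarith
    · have hsplit : Icc (3 : ℕ) K = Icc 3 12 ∪ Icc 13 K := by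
        ext b
        simp only [mem_union, mem_Icc]
        omega
      have hdisj : Disjoint (Icc (3 : ℕ) 12) (Icc 13 K) := by
        rw [disjoint_left]
        intro b h1 h2
        have := (mem_Icc.1 h1).2
        have := (mem_Icc.1 h2).1
        omega
      have h := tot K
      rw [hsplit, sum_union hdisj] at h
      linarith

end Pool.Agent.Helper4.ND
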